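import Pool.Agent.H59.LIN.Targets

/-!
Row EXI of the board lin_modules: existence of the HOMFLYPT polynomial of closed braids.
-/

set_option autoImplicit false

open Finset Polynomial

namespace Pool.Agent.H1.LIN

open Pool.Agent.H59.LIN

theorem gp_sg {K : Type} [CommRing K] (m k : ℕ) (hk : k < m + 2) (x : MM K m) :
    gp K m k (sg K m k x) = x := by
  unfold gp sg
  rw [dif_pos hk, dif_pos hk]
  exact Pi.single_eq_same (M := fun _ : Fin (m + 2) => MM K m) _ _

theorem gp_sg_ne {K : Type} [CommRing K] (m k l : ℕ) (h : k ≠ l) (x : MM K m) :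
    gp K m k (sg K m l x) = 0 := by
  unfold gp sg
  by_cases hk : k < m + 2
  · by_cases hl : l < m + 2
    · rw [dif_pos hk, dif_pos hl]
      exact Pi.single_eq_of_ne (M := fun _ : Fin (m + 2) => MM K m)
        (fun e => h (by simpa using congrArg Fin.val e)) _
    · rw [dif_neg hl, LinearMap.zero_apply, map_zero]
  · rw [dif_neg hk]
    rfl

theorem EX_app {K : Type} [CommRing K] (s κ δ : K) (m : ℕ) (x : MM K (m + 1)) :
    EX s κ δ m x = δ • gp K m (m + 1) x +
      ∑ k ∈ range (m + 1), RC s κ m k (gp K m k x) := by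
  unfold EX
  rw [LinearMap.add_apply, LinearMap.smul_apply, LinearMap.sum_apply]
  rfl

theorem EX_io {K : Type} [CommRing K] (s κ δ : K) (m : ℕ) (y : MM K m) :
    EX s κ δ m (io K m y) = δ • y := by
  rw [EX_app]
  unfold io
  rw [gp_sg m (m + 1) (by omega), Finset.sum_eq_zero, add_zero]
  intro k hk
  rw [mem_range] at hk
  rw [gp_sg_ne m k (m + 1) (by omega), map_zero]

theorem EX_sg {K : Type} [CommRing K] (s κ δ : K) (m : ℕ) (y : MM K m) :
    EX s κ δ m (sg K m m y) = y := by
  rw [EX_app, gp_sg_ne m (m + 1) m (by omega), smul_zero, zero_add,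
    Finset.sum_eq_single m]
  · rw [gp_sg m m (by omega)]
    unfold RC
    simp
  · intro k hk hne
    rw [gp_sg_ne m k m hne, map_zero]
  · intro h
    exact absurd (mem_range.mpr (by omega)) h

section

variable {K : Type} [CommRing K] (s κ κ' : K)

/-- the operator of a letter -/
def ac (n : ℕ) (a : Fin n × Bool) : MM K n →ₗ[K] MM K n :=
  if a.2 then RR s κ n a.1 else κ' • (RR s κ n a.1 - s • LinearMap.id)

/-- the left operator of a letter -/
def lc (n : ℕ) (a : Fin n × Bool) : MM K n →ₗ[K] MM K n :=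
  if a.2 then LL s κ n a.1 else κ' • (LL s κ n a.1 - s • LinearMap.id)

/-- the operator of a word -/
def act (n : ℕ) : Wd n → (MM K n →ₗ[K] MM K n)
  | [] => LinearMap.id
  | a :: w => act n w ∘ₗ ac s κ κ' n a

theorem ac_true (n : ℕ) (i : Fin n) (x : MM K n) : ac s κ κ' n (i, true) x = RR s κ n i x := rfl

theorem ac_false (n : ℕ) (i : Fin n) (x : MM K n) :
    ac s κ κ' n (i, false) x = κ' • (RR s κ n i x - s • x) := rfl

theorem lc_true (n : ℕ) (i : Fin n) (x : MM K n) : lc s κ κ' n (i, true) x = LL s κ n i x := rfl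

theorem lc_false (n : ℕ) (i : Fin n) (x : MM K n) :
    lc s κ κ' n (i, false) x = κ' • (LL s κ n i x - s • x) := rfl

theorem act_nil (n : ℕ) (x : MM K n) : act s κ κ' n [] x = x := rfl

theorem act_cons (n : ℕ) (a : Fin n × Bool) (w : Wd n) (x : MM K n) :
    act s κ κ' n (a :: w) x = act s κ κ' n w (ac s κ κ' n a x) := rfl

theorem act_append (n : ℕ) (u v : Wd n) (x : MM K n) :
    act s κ κ' n (u ++ v) x = act s κ κ' n v (act s κ κ' n u x) := by
  induction u generalizing x with
  | nil => rfl
  | cons a u ih => rw [List.cons_append, act_cons, act_cons, ih]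

end

theorem pf_EXI (hHR : Pool.Agent.H59.LIN.T_HR) (hHC : Pool.Agent.H59.LIN.T_HC)
    (hHL : Pool.Agent.H59.LIN.T_HL) (hHT : Pool.Agent.H59.LIN.T_HT) :
    Pool.Agent.H59.LIN.T_EXI := by
  intro K _ s δ κ' hκ'
  obtain ⟨κ, hκ⟩ : ∃ κ : K, κ = 1 - s * δ := ⟨_, rfl⟩
  rw [← hκ] at hκ'
  have hκ2 : κ' * κ = 1 := by rw [mul_comm]; exact hκ'
  -- the letters
  have hcan : ∀ (n : ℕ) (i : Fin n) (b : Bool) (x : MM K n),
      ac s κ κ' n (i, !b) (ac s κ κ' n (i, b) x) = x := by
    intro n i b x
    have h1 := (hHR K s κ n).1 i i.2 x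
    cases b
    · rw [Bool.not_false, ac_true, ac_false, map_smul, map_sub, map_smul, h1, add_sub_cancel_right,
        smul_smul, hκ2, one_smul]
    · rw [Bool.not_true, ac_false, ac_true, h1, add_sub_cancel_right, smul_smul, hκ2, one_smul]
  have hfar : ∀ (n : ℕ) (i j : Fin n) (b c : Bool) (x : MM K n), (i : ℕ) + 1 < j →
      ac s κ κ' n (j, c) (ac s κ κ' n (i, b) x) = ac s κ κ' n (i, b) (ac s κ κ' n (j, c) x) := by
    intro n i j b c x hij
    have h1 := (hHR K s κ n).2.2 i j hij j.2
    cases b <;> cases c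
    · rw [ac_false, ac_false, ac_false, ac_false]
      simp only [map_smul, map_sub, h1, smul_sub]
      simp only [smul_smul]
      rw [mul_comm κ' s, mul_comm s κ']
      abel
    · rw [ac_false, ac_false, ac_true, ac_true]
      simp only [map_smul, map_sub, h1, smul_sub]
    · rw [ac_false, ac_false, ac_true, ac_true]
      simp only [map_smul, map_sub, h1, smul_sub]
    · rw [ac_true, ac_true, ac_true, ac_true, h1]
  have hskein : ∀ (n : ℕ) (i : Fin n) (x : MM K n), ac s κ κ' n (i, true) x =
      κ • ac s κ κ' n (i, false) x + s • x := by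
    intro n i x
    rw [ac_true, ac_false, smul_smul, hκ', one_smul, sub_add_cancel]
  have hio : ∀ (n : ℕ) (i : Fin n) (b : Bool) (x : MM K n),
      ac s κ κ' (n + 1) (i.castSucc, b) (io K n x) = io K n (ac s κ κ' n (i, b) x) := by
    intro n i b x
    have h1 := (hHC K s κ n).1 i i.2 x
    cases b
    · rw [ac_false, ac_false, map_smul, map_sub, map_smul, h1]
      rfl
    · rw [ac_true, ac_true, h1]
      rfl
  have hup : ∀ (n : ℕ) (w : Wd n) (x : MM K n),
      act s κ κ' (n + 1) (up w) (io K n x) = io K n (act s κ κ' n w x) := by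
    intro n w
    induction w with
    | nil => intro x; rfl
    | cons a w ih =>
      intro x
      have h1 : up (a :: w) = (a.1.castSucc, a.2) :: up w := rfl
      rw [h1, act_cons, act_cons, hio, ih]
  have hlast : ∀ (n : ℕ) (y : MM K n), RR s κ (n + 1) n (io K n y) = sg K n n y := by
    intro n y
    have h1 := (hHC K s κ n).2.1 n (by omega) y
    rw [← h1]
    unfold RC
    rw [show n + 1 - n = 1 by omega]
    simp
  have hcom : ∀ (n : ℕ) (a b : Fin n × Bool) (x : MM K n),
      ac s κ κ' n b (lc s κ κ' n a x) = lc s κ κ' n a (ac s κ κ' n b x) := by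
    rintro n ⟨i, b⟩ ⟨j, c⟩ x
    have h1 := (hHL K s κ n).2.1 i j i.2 j.2
    cases b <;> cases c
    · rw [ac_false, ac_false, lc_false, lc_false]
      simp only [map_smul, map_sub, h1, smul_sub]
      simp only [smul_smul]
      rw [mul_comm κ' s, mul_comm s κ']
      abel
    · rw [lc_false, lc_false, ac_true, ac_true]
      simp only [map_smul, map_sub, h1, smul_sub]
    · rw [ac_false, ac_false, lc_true, lc_true]
      simp only [map_smul, map_sub, h1, smul_sub]
    · rw [ac_true, ac_true, lc_true, lc_true, h1]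
  have hcomw : ∀ (n : ℕ) (a : Fin n × Bool) (w : Wd n) (x : MM K n),
      act s κ κ' n w (lc s κ κ' n a x) = lc s κ κ' n a (act s κ κ' n w x) := by
    intro n a w
    induction w with
    | nil => intro x; rfl
    | cons b w ih =>
      intro x
      rw [act_cons, act_cons, hcom, ih]
  have heb : ∀ (n : ℕ) (a : Fin n × Bool),
      ac s κ κ' n a (eb K n) = lc s κ κ' n a (eb K n) := by
    rintro n ⟨i, b⟩
    have h1 := (hHL K s κ n).2.2 i i.2
    cases b
    · rw [ac_false, lc_false, h1]
    · rw [ac_true, lc_true, h1]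
  have htr : ∀ (n : ℕ) (a : Fin n × Bool) (x : MM K n),
      TT s κ δ n (lc s κ κ' n a x) = TT s κ δ n (ac s κ κ' n a x) := by
    rintro n ⟨i, b⟩ x
    have h1 := hHT K s κ δ hκ n i i.2
    cases b
    · rw [ac_false, lc_false, map_smul, map_smul, map_sub, map_sub, h1]
    · rw [ac_true, lc_true, h1]
  have hrot : ∀ (n : ℕ) (a : Fin n × Bool) (w : Wd n),
      TT s κ δ n (act s κ κ' n (a :: w) (eb K n)) =
        TT s κ δ n (act s κ κ' n (w ++ [a]) (eb K n)) := by
    intro n a w
    rw [act_cons, heb, hcomw, htr, act_append, act_cons, act_nil]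
  have hTT : ∀ (n : ℕ) (x : MM K (n + 1)), TT s κ δ (n + 1) x = TT s κ δ n (EX s κ δ n x) :=
    fun n x => rfl
  have hebs : ∀ n : ℕ, eb K (n + 1) = io K n (eb K n) := fun n => rfl
  refine ⟨fun n w => TT s κ δ n (act s κ κ' n w (eb K n)), ?_, ?_, ?_, ?_, ?_, ?_, ?_, ?_⟩
  · rfl
  · intro n w
    change TT s κ δ (n + 1) (act s κ κ' (n + 1) (up w) (eb K (n + 1))) =
      δ * TT s κ δ n (act s κ κ' n w (eb K n))
    rw [hebs, hup, hTT, EX_io, map_smul, smul_eq_mul]
  · intro n w b
    change TT s κ δ (n + 1) (act s κ κ' (n + 1) (up w ++ [(Fin.last n, b)]) (eb K (n + 1))) =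
      TT s κ δ n (act s κ κ' n w (eb K n))
    have h1 : ∀ y : MM K n, RR s κ (n + 1) (Fin.last n : ℕ) (io K n y) = sg K n n y := by
      intro y
      rw [Fin.val_last]
      exact hlast n y
    rw [hebs, act_append, hup, act_cons, act_nil, hTT]
    congr 1
    cases b
    · rw [ac_false, h1, map_smul, map_sub, map_smul, EX_sg, EX_io, smul_smul]
      have h2 : ∀ y : MM K n, y - (s * δ) • y = κ • y := by
        intro y
        rw [hκ, sub_smul, one_smul]
      rw [h2, smul_smul, hκ2, one_smul]
    · rw [ac_true, h1, EX_sg]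
  · intro n u
    induction u with
    | nil =>
      intro v
      rw [List.nil_append, List.append_nil]
    | cons a u ih =>
      intro v
      have h1 := hrot n a (u ++ v)
      have h2 := ih (v ++ [a])
      rw [List.cons_append]
      rw [List.append_assoc, List.singleton_append] at h2
      refine h1.trans ?_
      rw [List.append_assoc]
      exact h2
  · intro n u v i b
    change TT s κ δ n (act s κ κ' n (u ++ (i, b) :: (i, !b) :: v) (eb K n)) =
      TT s κ δ n (act s κ κ' n (u ++ v) (eb K n))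
    rw [act_append, act_append, act_cons, act_cons, hcan]
  · intro n u v i j b c hij
    change TT s κ δ n (act s κ κ' n (u ++ (i, b) :: (j, c) :: v) (eb K n)) =
      TT s κ δ n (act s κ κ' n (u ++ (j, c) :: (i, b) :: v) (eb K n))
    rw [act_append, act_append, act_cons, act_cons, act_cons, act_cons, hfar n i j b c _ hij]
  · intro n u v i j hij
    change TT s κ δ n (act s κ κ' n (u ++ (i, true) :: (j, true) :: (i, true) :: v) (eb K n)) =
      TT s κ δ n (act s κ κ' n (u ++ (j, true) :: (i, true) :: (j, true) :: v) (eb K n))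
    rw [act_append, act_append, act_cons, act_cons, act_cons, act_cons, act_cons, act_cons]
    simp only [ac_true]
    have h1 := (hHR K s κ n).2.1 i (by rw [← hij]; exact j.2) (act s κ κ' n u (eb K n))
    rw [← hij] at h1
    rw [h1]
  · intro n u v i
    change TT s κ δ n (act s κ κ' n (u ++ (i, true) :: v) (eb K n)) =
      (1 - s * δ) * TT s κ δ n (act s κ κ' n (u ++ (i, false) :: v) (eb K n)) +
        s * TT s κ δ n (act s κ κ' n (u ++ v) (eb K n))
    rw [act_append, act_append, act_append, act_cons, act_cons, hskein, map_add, map_add,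
      map_smul, map_smul, map_smul, map_smul, smul_eq_mul, smul_eq_mul, ← hκ]

end Pool.Agent.H1.LIN
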