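import Pool.Agent.H59.LIN.Targets

/-!
Row HE of the board lin_modules: the conditional expectation commutes with the right
multiplications.
-/

set_option autoImplicit false

open Finset Polynomial

namespace Pool.Agent.H1.LIN

open Pool.Agent.H59.LIN

theorem gp_pim {K : Type} [CommRing K] (m : ℕ) {V : Type} [AddCommGroup V] [Module K V]
    (F : ℕ → V →ₗ[K] MM K m) (l : ℕ) (hl : l < m + 2) (x : V) :
    gp K m l (pim K m F x) = F l x := by
  unfold gp pim
  rw [dif_pos hl]
  rfl

theorem gp_RR {K : Type} [CommRing K] (s κ : K) (m i l : ℕ) (hl : l < m + 2) (x : MM K (m + 1)) :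
    gp K m l (RR s κ (m + 1) i x) =
      if l < i then RR s κ m (i - 1) (gp K m l x)
      else if l = i then gp K m (i + 1) x + s • gp K m i x
      else if l = i + 1 then κ • gp K m i x
      else RR s κ m i (gp K m l x) := by
  have h1 : RR s κ (m + 1) i = pim K m fun l =>
      if l < i then RR s κ m (i - 1) ∘ₗ gp K m l
      else if l = i then gp K m (i + 1) + s • gp K m i
      else if l = i + 1 then κ • gp K m i
      else RR s κ m i ∘ₗ gp K m l := rfl
  rw [h1, gp_pim m _ l hl x]
  split_ifs <;> rfl

theorem EX_apply {K : Type} [CommRing K] (s κ δ : K) (m : ℕ) (x : MM K (m + 1)) :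
    EX s κ δ m x = δ • gp K m (m + 1) x +
      ∑ k ∈ range (m + 1), RC s κ m k (gp K m k x) := by
  unfold EX
  rw [LinearMap.add_apply, LinearMap.smul_apply, LinearMap.sum_apply]
  rfl

theorem pf_HE (hHR : Pool.Agent.H59.LIN.T_HR) (hHC : Pool.Agent.H59.LIN.T_HC) :
    Pool.Agent.H59.LIN.T_HE := by
  have _ := hHR
  intro K _ s κ δ m i hi x
  have hC := (hHC K s κ m).2.2
  rw [EX_apply, EX_apply, map_add, map_smul, map_sum]
  have e1 : gp K m (m + 1) (RR s κ (m + 1) i x) = RR s κ m i (gp K m (m + 1) x) := by
    rw [gp_RR s κ m i (m + 1) (by omega) x, if_neg (by omega), if_neg (by omega),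
      if_neg (by omega)]
  rw [e1]
  congr 1
  rw [← sub_eq_zero, ← Finset.sum_sub_distrib]
  have h2 : ∑ k ∈ range (m + 1), (RC s κ m k (gp K m k (RR s κ (m + 1) i x)) -
      RR s κ m i (RC s κ m k (gp K m k x))) =
      ∑ k ∈ {i, i + 1}, (RC s κ m k (gp K m k (RR s κ (m + 1) i x)) -
      RR s κ m i (RC s κ m k (gp K m k x))) := by
    symm
    refine Finset.sum_subset ?_ ?_
    · intro k hk
      rw [mem_insert, mem_singleton] at hk
      rw [mem_range]
      omega
    · intro k hk hk'
      rw [mem_insert, mem_singleton, not_or] at hk'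
      rw [mem_range] at hk
      rw [gp_RR s κ m i k (by omega) x, hC k i (by omega) hi, if_neg hk'.1, if_neg hk'.2]
      by_cases h3 : k < i
      · rw [if_pos h3, if_neg (by omega), if_neg (by omega), if_neg (by omega), sub_self]
      · rw [if_neg h3, if_pos (by omega), sub_self]
  rw [h2, Finset.sum_pair (by omega), gp_RR s κ m i i (by omega) x,
    gp_RR s κ m i (i + 1) (by omega) x, hC i i (by omega) hi, hC (i + 1) i (by omega) hi,
    if_neg (lt_irrefl i), if_pos rfl, if_neg (by omega), if_neg (by omega), if_pos rfl,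
    if_neg (by omega), if_neg (by omega), if_pos rfl, if_neg (by omega), if_pos rfl, map_add,
    map_smul, map_smul]
  abel

end Pool.Agent.H1.LIN
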