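import Pool.Agent.H59.LIN.Targets

/-!
Row MON of the board lin_modules: the products of binomial coefficients of the basic invariants.
-/

set_option autoImplicit false

open Finset Polynomial

namespace Pool.Agent.H1.LIN

open Pool.Agent.H59.LIN

theorem Dif_one {α K : Type} [DecidableEq α] [CommRing K] (A : Finset α) (ε : α → Bool) :
    Dif A (fun _ => (1 : K)) ε = if A = ∅ then 1 else 0 := by
  unfold Dif
  simp only [mul_one]
  split_ifs with h
  · rw [h]
    simp
  · have h1 := Finset.sum_powerset_neg_one_pow_card_of_nonempty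
      (Finset.nonempty_iff_ne_empty.mpr h)
    have h2 := congrArg (Int.cast : ℤ → K) h1
    push_cast at h2
    exact h2

theorem prod_cube (hCAP : Pool.Agent.H59.LIN.T_CAP) {α ι : Type} [Fintype α] [DecidableEq α]
    [DecidableEq ι] (G : ι → (α → Bool) → ℤ) (a : ι → ℕ) (S : Finset ι)
    (h : ∀ b ∈ S, Dg (G b) (a b)) :
    Dg (fun ε => ∏ b ∈ S, G b ε) (∑ b ∈ S, a b) ∧
      sy (fun ε => ∏ b ∈ S, G b ε) (∑ b ∈ S, a b) = ∏ b ∈ S, sy (G b) (a b) := by
  induction S using Finset.induction_on with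
  | empty =>
    simp only [Finset.prod_empty, Finset.sum_empty]
    constructor
    · intro A ε hA
      rw [Dif_one, if_neg]
      rintro rfl
      simp at hA
    · funext A
      unfold sy
      rw [Dif_one, SF.one_def]
      by_cases hA : A = ∅
      · rw [hA]
        simp
      · rw [if_neg hA]
        split_ifs <;> rfl
  | insert b S hb ih =>
    obtain ⟨i1, i2⟩ := ih fun c hc => h c (Finset.mem_insert_of_mem hc)
    have h1 := hCAP α ℤ (G b) (fun ε => ∏ b ∈ S, G b ε) (a b) (∑ b ∈ S, a b)
      (h b (Finset.mem_insert_self _ _)) i1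
    have h2 : (fun ε => ∏ c ∈ insert b S, G c ε) = fun ε => G b ε * ∏ c ∈ S, G c ε := by
      funext ε
      rw [Finset.prod_insert hb]
    rw [h2, Finset.sum_insert hb, Finset.prod_insert hb, ← i2]
    exact h1

/-- the cast of set functions -/
def cst {α : Type} [DecidableEq α] : SF α ℤ →+* SF α ℚ where
  toFun f := fun A => (f A : ℚ)
  map_one' := by
    funext A
    rw [SF.one_def, SF.one_def]
    split_ifs <;> simp
  map_zero' := by
    funext A
    exact Int.cast_zero
  map_add' f g := by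
    funext A
    rw [SF.add_def, SF.add_def]
    push_cast
    rfl
  map_mul' f g := by
    funext A
    rw [SF.mul_def, SF.mul_def]
    push_cast
    rfl

theorem cst_apply {α : Type} [DecidableEq α] (f : SF α ℤ) (A : Finset α) :
    cst f A = (f A : ℚ) := rfl

theorem pf_MON (hCAP : Pool.Agent.H59.LIN.T_CAP) (hCAB : Pool.Agent.H59.LIN.T_CAB)
    (hBR : Pool.Agent.H59.LIN.T_BR) (hCMC : Pool.Agent.H59.LIN.T_CMC)
    (hFBA : Pool.Agent.H59.LIN.T_FBA) : Pool.Agent.H59.LIN.T_MON := by
  intro ν
  choose f hf using hFBA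
  have hwt : wt ν = ∑ b ∈ ν.toFinset, mb b * ν.count b := by
    unfold wt
    rw [Finset.sum_multiset_map_count]
    exact Finset.sum_congr rfl fun b _ => by rw [smul_eq_mul, mul_comm]
  obtain ⟨F, hF⟩ : ∃ F : (n : ℕ) → Wd n → ℤ, F = fun n w =>
      ∏ b ∈ ν.toFinset, Ring.choose (f b n w) (ν.count b) := ⟨_, rfl⟩
  -- the cubes
  have hb : ∀ (n : ℕ) (w : SWd n) (d : ℕ) (t : Fin d → ℕ), Knot w → Function.Injective t →
      IsDb w t → ∀ b, Dg (fun ε => Ring.choose (cb (f b n) w t ε) (ν.count b))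
        (mb b * ν.count b) ∧
      ∀ A, ((ν.count b).factorial : ℤ) *
        sy (fun ε => Ring.choose (cb (f b n) w t ε) (ν.count b)) (mb b * ν.count b) A =
          ((sy (cb (f b n) w t) (mb b)) ^ (ν.count b)) A := by
    intro n w d t hw ht hdb b
    have h1 := hCAB (Fin d) (cb (f b n) w t) (mb b) 0 (ν.count b) (by unfold mb; omega)
      ((hf b).2.1 n w d t hw ht hdb)
    simp only [add_zero] at h1
    exact h1
  have hcube : ∀ (n : ℕ) (w : SWd n) (d : ℕ) (t : Fin d → ℕ), Knot w → Function.Injective t →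
      IsDb w t → Dg (cb (F n) w t) (wt ν) ∧ sy (cb (F n) w t) (wt ν) =
        ∏ b ∈ ν.toFinset, sy (fun ε => Ring.choose (cb (f b n) w t ε) (ν.count b))
          (mb b * ν.count b) := by
    intro n w d t hw ht hdb
    have h1 := prod_cube hCAP
      (fun b ε => Ring.choose (cb (f b n) w t ε) (ν.count b)) (fun b => mb b * ν.count b)
      ν.toFinset (fun b _ => (hb n w d t hw ht hdb b).1)
    rw [hwt]
    have h2 : cb (F n) w t = fun ε => ∏ b ∈ ν.toFinset,
        Ring.choose (cb (f b n) w t ε) (ν.count b) := by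
      rw [hF]
      rfl
    rw [h2]
    exact h1
  refine ⟨F, ?_, ?_, ?_⟩
  · intro x y hxy hx
    rw [hF]
    exact Finset.prod_congr rfl fun b _ => by rw [(hf b).1 x y hxy hx]
  · intro n w hw hlt
    obtain ⟨t, ht, hdb⟩ := hBR.2 n w
    rw [hBR.1 ℤ n (F n) w (dbl w) t (fun _ => true) ht hdb]
    refine (hcube n w (dbl w) t hw ht hdb).1 univ _ ?_
    rw [Finset.card_univ, Fintype.card_fin]
    exact hlt
  · intro n w D hw hD
    obtain ⟨t, ht, hg⟩ := hD
    have hdb := hCMC.1 n w (wt ν) D t hw ht hg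
    rw [hBR.1 ℤ n (F n) w (wt ν) t (fun _ => true) ht hdb]
    have h1 : Dif univ (cb (F n) w t) (fun _ => true) = sy (cb (F n) w t) (wt ν) univ := by
      unfold sy
      rw [if_pos]
      rw [Finset.card_univ, Fintype.card_fin]
    rw [h1, (hcube n w (wt ν) t hw ht hdb).2, ← cst_apply, map_prod]
    have h2 : ∀ b, cst (sy (fun ε => Ring.choose (cb (f b n) w t ε) (ν.count b))
        (mb b * ν.count b)) = ((ν.count b).factorial : ℚ)⁻¹ • (phi D b) ^ (ν.count b) := by
      intro b
      have h3 : cst (sy (cb (f b n) w t) (mb b)) = phi D b := by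
        funext A
        rw [cst_apply]
        exact (hf b).2.2 n w (wt ν) D t hw ht hg A
      rw [← h3, ← map_pow]
      funext A
      rw [SF.smul_def', cst_apply, cst_apply, ← (hb n w (wt ν) t hw ht hdb b).2 A]
      push_cast
      have h4 : ((ν.count b).factorial : ℚ) ≠ 0 := by exact_mod_cast Nat.factorial_ne_zero _
      rw [← mul_assoc, inv_mul_cancel₀ h4, one_mul]
    rw [Finset.prod_congr rfl fun b _ => h2 b]
    have h5 : ∏ b ∈ ν.toFinset, ((ν.count b).factorial : ℚ)⁻¹ • (phi D b) ^ (ν.count b) =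
        (∏ b ∈ ν.toFinset, ((ν.count b).factorial : ℚ)⁻¹) • (ν.map (phi D)).prod := by
      rw [Finset.prod_multiset_map_count]
      simp only [Algebra.smul_def]
      rw [Finset.prod_mul_distrib, map_prod]
    rw [h5, SF.smul_def']
    rfl

end Pool.Agent.H1.LIN
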